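import Mathlib

/-!
Any `m` disjoint nonempty equal-sum subsets in a finite abelian group `G` appear as soon as there
are `((m - 1) / log (m / (m - 1)) + o(1)) log |G|` elements.
-/

open Finset

namespace Pool.Agent.Results.MP_8e4926_co.EqualSums

/-- A family of words over `ZMod m` in which no word is obtained from another one by adding a
nonzero `0-1` word has at most `(m - 1) ^ k` members: the matrix `(I - P) ^ (⊗ k)` has rank
`(m - 1) ^ k` and is the identity on the family. -/
theorem rank_bound {ι : Type*} [Fintype ι] [DecidableEq ι] {m : ℕ} [NeZero m]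
    (h1 : (1 : ZMod m) ≠ 0) (F : Finset (ι → ZMod m))
    (hF : ∀ c ∈ F, ∀ c' ∈ F, (∀ i, c' i = c i ∨ c' i = c i + 1) → c' = c) :
    F.card ≤ (m - 1) ^ Fintype.card ι := by
  let u : ZMod m → ZMod m → ℚ := fun x z => (if z = x then 1 else 0) - (if z = x + 1 then 1 else 0)
  let v : ZMod m → ZMod m → ℚ := fun z y => (if y = z then 1 else 0) - (if y = 0 then 1 else 0)
  have huv : ∀ x y : ZMod m, ∑ z : {z : ZMod m // z ≠ 0}, u x z * v z y = u x y := by
    intro x y
    have h0 : ∑ z : ZMod m, u x z * v z y = u x y := by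
      simp only [u, sub_mul, Finset.sum_sub_distrib, ite_mul, one_mul, zero_mul,
        Finset.sum_ite_eq', Finset.mem_univ, if_true, v]
      ring
    rw [← h0, ← Finset.sum_subtype (Finset.univ.erase 0) (by simp) (fun z => u x z * v z y),
      Finset.sum_erase]
    simp [v]
  let U : Matrix F (ι → {z : ZMod m // z ≠ 0}) ℚ := Matrix.of fun c d => ∏ i, u (c.1 i) (d i)
  let V : Matrix (ι → {z : ZMod m // z ≠ 0}) F ℚ := Matrix.of fun d c => ∏ i, v (d i) (c.1 i)
  have hUV : U * V = 1 := by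
    ext c c'
    have e : (U * V) c c' = ∏ i, u (c.1 i) (c'.1 i) := by
      rw [← Finset.prod_congr rfl fun i _ => huv (c.1 i) (c'.1 i), Finset.prod_univ_sum,
        Fintype.piFinset_univ]
      simp only [Matrix.mul_apply, U, V, Matrix.of_apply, ← Finset.prod_mul_distrib]
    rw [e]
    by_cases hc : c = c'
    · subst hc
      simp [u, h1]
    · rw [Matrix.one_apply_ne hc]
      by_contra hne
      apply hc
      refine Subtype.ext (hF c.1 c.2 c'.1 c'.2 fun i => ?_).symm
      by_contra hi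
      rw [not_or] at hi
      exact hne (Finset.prod_eq_zero (Finset.mem_univ i) (by simp [u, hi.1, hi.2]))
  have hr : (U * V).rank ≤ Fintype.card (ι → {z : ZMod m // z ≠ 0}) :=
    (Matrix.rank_mul_le_left U V).trans (Matrix.rank_le_card_width U)
  rw [hUV, Matrix.rank_one] at hr
  simpa [ZMod.card] using hr

/-- The pigeonhole step: `m` disjoint sets, not all empty, with equal sums. -/
theorem core {ι : Type*} [Fintype ι] {H : Type*} [AddCommGroup H] [Fintype H] {m : ℕ} [NeZero m]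
    (h1 : (1 : ZMod m) ≠ 0) (g : ι → H)
    (h : Fintype.card H ^ (m - 1) * (m - 1) ^ Fintype.card ι < m ^ Fintype.card ι) :
    ∃ A : ZMod m → Finset ι, (∃ j, (A j).Nonempty) ∧ (∀ i j, i ≠ j → Disjoint (A i) (A j)) ∧
      ∀ j, ∑ a ∈ A j, g a = ∑ a ∈ A 0, g a := by
  classical
  let lab : (ι → ZMod m) → ({z : ZMod m // z ≠ 0} → H) :=
    fun c z => ∑ i, if c i = z then g i else 0
  obtain ⟨y, hy⟩ := Fintype.exists_lt_card_fiber_of_mul_lt_card lab
    (n := (m - 1) ^ Fintype.card ι) (by simpa [ZMod.card] using h)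
  have hnot := mt (rank_bound h1 (Finset.univ.filter fun c => lab c = y)) (not_le.2 hy)
  push Not at hnot
  obtain ⟨c, hc, c', hc', hcc, hne⟩ := hnot
  have hl : lab c' = lab c := by
    rw [(Finset.mem_filter.1 hc).2, (Finset.mem_filter.1 hc').2]
  let A : ZMod m → Finset ι := fun j => Finset.univ.filter fun i => c i = j ∧ c' i = j + 1
  have step : ∀ j : ZMod m, j + 1 ≠ 0 → ∑ a ∈ A (j + 1), g a = ∑ a ∈ A j, g a := by
    intro j hj
    have e := congrFun hl ⟨j + 1, hj⟩
    simp only [lab] at e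
    rw [← sub_eq_zero, ← Finset.sum_sub_distrib] at e
    rw [eq_comm, ← sub_eq_zero, Finset.sum_filter, Finset.sum_filter, ← Finset.sum_sub_distrib]
    refine Eq.trans (Finset.sum_congr rfl fun i _ => ?_) e
    rcases hcc i with hi | hi
    · rw [hi]
      have a1 : ¬ (c i = j ∧ c i = j + 1) := fun h => h1 (by linear_combination h.1 - h.2)
      have a2 : ¬ (c i = j + 1 ∧ c i = j + 1 + 1) :=
        fun h => h1 (by linear_combination h.1 - h.2)
      rw [if_neg a1, if_neg a2, sub_self, sub_self]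
    · rw [hi]
      simp
  refine ⟨A, ?_, ?_, ?_⟩
  · obtain ⟨i, hi⟩ := Function.ne_iff.1 hne
    exact ⟨c i, i, by simpa [A] using (hcc i).resolve_left hi⟩
  · intro i j hij
    rw [Finset.disjoint_left]
    intro a ha hb
    exact hij ((Finset.mem_filter.1 ha).2.1.symm.trans (Finset.mem_filter.1 hb).2.1)
  · have all : ∀ n : ℕ, n < m → ∑ a ∈ A n, g a = ∑ a ∈ A 0, g a := by
      intro n
      induction n with
      | zero => simp
      | succ n ih =>
        intro hn
        have hz : ((n + 1 : ℕ) : ZMod m) ≠ 0 := by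
          rw [Ne, ZMod.natCast_eq_zero_iff]
          exact fun hd => absurd (Nat.le_of_dvd (Nat.succ_pos n) hd) (not_le.2 hn)
        push_cast at hz ⊢
        rw [step _ hz, ih (by omega)]
    intro j
    have := all j.val (ZMod.val_lt j)
    rwa [ZMod.natCast_zmod_val] at this

theorem result (m : ℕ) (hm : 2 ≤ m) (G : Type*) [AddCommGroup G] [Fintype G] (k : ℕ)
    (hk : (Fintype.card G * (k + 1)) ^ (m - 1) * (m - 1) ^ k < m ^ k)
    (ι : Type*) (g : ι → G) (s : Finset ι) (hs : k ≤ s.card) :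
    ∃ A : Fin m → Finset ι, (∀ j, A j ⊆ s ∧ (A j).Nonempty) ∧
      (∀ i j, i ≠ j → Disjoint (A i) (A j)) ∧
      ∀ i j, (A i).card = (A j).card ∧ ∑ a ∈ A i, g a = ∑ a ∈ A j, g a := by
  have : NeZero m := ⟨by omega⟩
  have : Fact (1 < m) := ⟨hm⟩
  obtain ⟨t, hts, rfl⟩ := Finset.exists_subset_card_eq hs
  obtain ⟨A, ⟨j₀, hj₀⟩, hdis, hsum⟩ := core (ι := t) (H := G × ZMod (t.card + 1)) (m := m)
    one_ne_zero (fun a => (g a, 1)) (by simpa [ZMod.card] using hk)
  have hcard : ∀ j, (A j).card = (A 0).card := by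
    intro j
    have e := congrArg Prod.snd (hsum j)
    simp only [Prod.snd_sum, Finset.sum_const, nsmul_eq_mul, mul_one] at e
    have l : ∀ j, (A j).card < t.card + 1 := fun j =>
      Nat.lt_succ_of_le (by simpa using Finset.card_le_univ (A j))
    exact Nat.ModEq.eq_of_lt_of_lt ((ZMod.natCast_eq_natCast_iff _ _ _).1 e) (l j) (l 0)
  have hsum' : ∀ j, ∑ a ∈ A j, g a = ∑ a ∈ A 0, g a := by
    intro j
    simpa only [Prod.fst_sum] using congrArg Prod.fst (hsum j)
  refine ⟨fun j => (A (ZMod.finEquiv m j)).map (Function.Embedding.subtype _), fun j => ⟨?_, ?_⟩,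
    fun i j hij => ?_, fun i j => ⟨?_, ?_⟩⟩
  · intro a ha
    obtain ⟨b, -, rfl⟩ := Finset.mem_map.1 ha
    exact hts b.2
  · rw [Finset.map_nonempty, ← Finset.card_pos, hcard, ← hcard j₀, Finset.card_pos]
    exact hj₀
  · exact (Finset.disjoint_map _).2 (hdis _ _ fun e => hij ((ZMod.finEquiv m).injective e))
  · rw [Finset.card_map, Finset.card_map, hcard, hcard (ZMod.finEquiv m j)]
  · rw [Finset.sum_map, Finset.sum_map]
    exact (hsum' _).trans (hsum' _).symm

/-- The hypothesis of `result` holds for `k ≥ c log n`, `n` large, as soon as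
`c > (m - 1) / log (m / (m - 1))`. -/
theorem threshold (m : ℕ) (hm : 2 ≤ m) (c : ℝ)
    (hc : ((m : ℝ) - 1) / Real.log (m / (m - 1)) < c) :
    ∀ᶠ n : ℕ in Filter.atTop, ∀ k : ℕ, c * Real.log n ≤ k →
      (n * (k + 1)) ^ (m - 1) * (m - 1) ^ k < m ^ k := by
  have hm' : (2 : ℝ) ≤ m := by exact_mod_cast hm
  have h1 : (0 : ℝ) < m - 1 := by linarith
  have hL : 0 < Real.log (m / (m - 1)) :=
    Real.log_pos (by rw [one_lt_div h1]; linarith)
  set L := Real.log ((m : ℝ) / (m - 1)) with hLdef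
  have hc0 : 0 < c := (div_pos h1 hL).trans hc
  have hδ : 0 < L - (m - 1) / c := by
    rw [div_lt_iff₀ hL] at hc
    rw [sub_pos, div_lt_iff₀ hc0]
    linarith
  set δ := L - (m - 1) / c with hδdef
  have e1 : ∀ᶠ x : ℝ in Filter.atTop, ‖Real.log x‖ ≤ δ / (4 * (m - 1)) * ‖id x‖ :=
    Real.isLittleO_log_id_atTop.bound (by positivity)
  obtain ⟨X, hX⟩ := Filter.eventually_atTop.1 e1
  have e2 : ∀ᶠ n : ℕ in Filter.atTop, max X 1 ≤ c * Real.log n :=
    ((Real.tendsto_log_atTop.comp tendsto_natCast_atTop_atTop).const_mul_atTop hc0).eventually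
      (Filter.eventually_ge_atTop _)
  filter_upwards [e2, Filter.eventually_gt_atTop 0] with n hn hn0 k hk
  have hk1 : (1 : ℝ) ≤ k := (le_max_right _ _).trans (hn.trans hk)
  have hkX : X ≤ (k : ℝ) + 1 := by linarith [le_max_left X 1]
  have b1 := hX _ hkX
  rw [id, Real.norm_of_nonneg (Real.log_nonneg (by linarith)),
    Real.norm_of_nonneg (by linarith), div_mul_eq_mul_div, le_div_iff₀ (by positivity)] at b1
  have b2 : (m - 1) * Real.log n ≤ (m - 1) / c * k := by
    rw [div_mul_eq_mul_div, le_div_iff₀ hc0]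
    nlinarith
  have hn' : (0 : ℝ) < n := by exact_mod_cast hn0
  have hcast : ((m - 1 : ℕ) : ℝ) = m - 1 := by
    rw [Nat.cast_sub (by omega), Nat.cast_one]
  have goal : ((n : ℝ) * (k + 1)) ^ (m - 1) * (m - 1) ^ k < m ^ k := by
    rw [← Real.log_lt_log_iff (by positivity) (by positivity),
      Real.log_mul (by positivity) (by positivity), Real.log_pow, Real.log_pow, Real.log_pow,
      Real.log_mul (by positivity) (by positivity), hcast]
    have hLs : L = Real.log m - Real.log (m - 1) := Real.log_div (by positivity) h1.ne'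
    have : Real.log m = δ + (m - 1) / c + Real.log (m - 1) := by linarith
    rw [this]
    nlinarith
  rw [← hcast] at goal
  exact_mod_cast goal

/-- The case `m = 3`, for the function `F` of the problem:
`F n ≤ c log n` for large `n`, for every `c > 2 / log (3 / 2) = 4.93…`. -/
theorem F_le (c : ℝ) (hc : 2 / Real.log (3 / 2) < c) :
    ∀ᶠ n : ℕ in Filter.atTop,
      ((sSup {m : ℕ | ∃ (G : Type) (_ : AddCommGroup G) (_ : Fintype G),
          Fintype.card G = n ∧
          m = sInf {k : ℕ | ∀ S : Finset G, k ≤ S.card →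
            ∃ A B C : Finset G, A ⊆ S ∧ B ⊆ S ∧ C ⊆ S ∧
              A.Nonempty ∧ B.Nonempty ∧ C.Nonempty ∧
              Disjoint A B ∧ Disjoint A C ∧ Disjoint B C ∧
              (∑ a ∈ A, a) = (∑ b ∈ B, b) ∧ (∑ b ∈ B, b) = (∑ c ∈ C, c)}} : ℕ) : ℝ)
        ≤ c * Real.log n := by
  obtain ⟨d, hd, hdc⟩ := exists_between hc
  have hd0 : 0 < d := (div_pos two_pos (Real.log_pos (by norm_num))).trans hd
  have e2 : ∀ᶠ n : ℕ in Filter.atTop, 1 ≤ (c - d) * Real.log n :=
    ((Real.tendsto_log_atTop.comp tendsto_natCast_atTop_atTop).const_mul_atTop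
      (sub_pos.2 hdc)).eventually (Filter.eventually_ge_atTop _)
  filter_upwards [threshold 3 (by norm_num) d (by norm_num; exact hd), e2] with n hn hn1
  have h0 : 0 ≤ d * Real.log n := mul_nonneg hd0.le (Real.log_natCast_nonneg n)
  refine le_trans (Nat.cast_le.2 (csSup_le' (a := ⌈d * Real.log n⌉₊) ?_))
    (by linarith [Nat.ceil_lt_add_one h0])
  rintro _ ⟨G, _, _, rfl, rfl⟩
  refine Nat.sInf_le fun S hS => ?_
  obtain ⟨A, h1, h2, h3⟩ := result 3 (by norm_num) G _ (hn _ (Nat.le_ceil _)) G id S hS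
  exact ⟨A 0, A 1, A 2, (h1 0).1, (h1 1).1, (h1 2).1, (h1 0).2, (h1 1).2, (h1 2).2,
    h2 0 1 (by decide), h2 0 2 (by decide), h2 1 2 (by decide), (h3 0 1).2, (h3 1 2).2⟩

/-- For comparison, the greedy lower bound: if `n ≥ (m - 1) ^ 2 (m / (m - 1)) ^ k`, some `k`-subset
of `ZMod n` has no `m` disjoint nonempty subsets with equal sums. -/
theorem lower (m : ℕ) (hm : 2 ≤ m) (k n : ℕ)
    (hn : ((m : ℝ) - 1) ^ 2 * (m / (m - 1)) ^ k ≤ n) :
    ∃ S : Finset (ZMod n), S.card = k ∧
      ¬ ∃ A : Fin m → Finset (ZMod n), (∀ j, A j ⊆ S ∧ (A j).Nonempty) ∧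
        (∀ i j, i ≠ j → Disjoint (A i) (A j)) ∧ ∀ i j, ∑ a ∈ A i, a = ∑ a ∈ A j, a := by
  classical
  have hm' : (2 : ℝ) ≤ m := by exact_mod_cast hm
  have h1 : (0 : ℝ) < m - 1 := by linarith
  have hcast : ((m - 1 : ℕ) : ℝ) = m - 1 := by
    rw [Nat.cast_sub (by omega), Nat.cast_one]
  set r : ℝ := m / (m - 1) with hr
  have hr1 : (m - 1) * r = (m - 1) + 1 := by rw [hr]; field_simp; ring
  have hr0 : 1 ≤ r := by rw [hr, one_le_div h1]; linarith
  let a : ℕ → ℕ := fun i => ⌊((m : ℝ) - 1) * r ^ i⌋₊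
  have ha : ∀ i, (a i : ℝ) ≤ (m - 1) * r ^ i := fun i => Nat.floor_le (by positivity)
  have ha' : ∀ i, (m - 1) * r ^ i < a i + 1 := fun i => Nat.lt_floor_add_one _
  have hmono : StrictMono a := strictMono_nat_of_lt_succ fun i => by
    refine Nat.lt_of_succ_le (Nat.le_floor ?_)
    have := one_le_pow₀ (n := i) hr0
    have e : (m - 1) * r ^ (i + 1) = (m - 1) * r ^ i + r ^ i := by
      rw [pow_succ', ← mul_assoc, hr1]; ring
    push_cast
    linarith [ha i]
  have hsum : ∀ j, ((∑ i ∈ Finset.range j, a i : ℕ) : ℝ) ≤ (m - 1) ^ 2 * (r ^ j - 1) := by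
    intro j
    induction j with
    | zero => simp
    | succ j ih =>
      have e : (m - 1) * r ^ (j + 1) = (m - 1) * r ^ j + r ^ j := by
        rw [pow_succ', ← mul_assoc, hr1]; ring
      rw [Finset.sum_range_succ, Nat.cast_add]
      have e' : (m - 1) * ((m - 1) * r ^ (j + 1)) = (m - 1) * ((m - 1) * r ^ j + r ^ j) := by
        rw [e]
      nlinarith [ha j]
  have hgap : ∀ j, ∑ i ∈ Finset.range j, a i < (m - 1) * a j := by
    intro j
    rw [← Nat.cast_lt (α := ℝ), Nat.cast_mul, hcast]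
    have := mul_lt_mul_of_pos_left (ha' j) h1
    nlinarith [hsum j]
  have htot : ∑ i ∈ Finset.range k, a i < n := by
    rw [← Nat.cast_lt (α := ℝ)]
    nlinarith [hsum k]
  have hle : ∀ B ⊆ Finset.range k, ∑ i ∈ B, a i < n := fun B hB =>
    (Finset.sum_le_sum_of_subset hB).trans_lt htot
  have hinj : Set.InjOn (fun i => (a i : ZMod n)) (Finset.range k) := by
    intro i hi j hj e
    refine hmono.injective (Nat.ModEq.eq_of_lt_of_lt ((ZMod.natCast_eq_natCast_iff _ _ _).1 e)
      ?_ ?_)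
    · simpa using hle {i} (by simpa using hi)
    · simpa using hle {j} (by simpa using hj)
  refine ⟨(Finset.range k).image fun i => (a i : ZMod n),
    by rw [Finset.card_image_of_injOn hinj, Finset.card_range], ?_⟩
  rintro ⟨A, h1, h2, h3⟩
  choose B hB hBA using fun j => Finset.subset_image_iff.1 (h1 j).1
  have hBs : ∀ i j, ∑ x ∈ B i, a x = ∑ x ∈ B j, a x := by
    intro i j
    refine Nat.ModEq.eq_of_lt_of_lt ((ZMod.natCast_eq_natCast_iff _ _ _).1 ?_)
      (hle _ (hB i)) (hle _ (hB j))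
    have e := h3 i j
    rw [← hBA i, ← hBA j, Finset.sum_image (hinj.mono (hB i)),
      Finset.sum_image (hinj.mono (hB j))] at e
    simpa using e
  have hBd : ∀ i j, i ≠ j → Disjoint (B i) (B j) := fun i j hij =>
    Disjoint.of_image_finset (f := fun i => (a i : ZMod n))
      (by rw [hBA i, hBA j]; exact h2 i j hij)
  have hne : (Finset.univ.biUnion B).Nonempty := by
    obtain ⟨x, hx⟩ := (h1 ⟨0, by omega⟩).2
    rw [← hBA] at hx
    obtain ⟨y, hy, -⟩ := Finset.mem_image.1 hx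
    exact ⟨y, Finset.mem_biUnion.2 ⟨_, Finset.mem_univ _, hy⟩⟩
  obtain ⟨t, ht, htm⟩ := Finset.exists_max_image _ id hne
  obtain ⟨j₀, -, hj₀⟩ := Finset.mem_biUnion.1 ht
  have c1 : ∑ x ∈ (Finset.univ.erase j₀).biUnion B, a x ≤ ∑ i ∈ Finset.range t, a i := by
    refine Finset.sum_le_sum_of_subset fun x hx => ?_
    obtain ⟨j, hj, hxj⟩ := Finset.mem_biUnion.1 hx
    refine Finset.mem_range.2 (lt_of_le_of_ne
      (htm x (Finset.mem_biUnion.2 ⟨j, Finset.mem_univ _, hxj⟩)) ?_)
    rintro rfl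
    exact Finset.disjoint_left.1 (hBd j j₀ (Finset.ne_of_mem_erase hj)) hxj hj₀
  rw [Finset.sum_biUnion fun i _ j _ hij => hBd i j hij,
    Finset.sum_congr rfl fun j _ => hBs j j₀, Finset.sum_const,
    Finset.card_erase_of_mem (Finset.mem_univ _), Finset.card_univ, Fintype.card_fin,
    smul_eq_mul] at c1
  have c2 : a t ≤ ∑ x ∈ B j₀, a x := Finset.single_le_sum (fun _ _ => Nat.zero_le _) hj₀
  exact absurd ((Nat.mul_le_mul_left _ c2).trans c1) (not_le.2 (hgap t))

end Pool.Agent.Results.MP_8e4926_co.EqualSums
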